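import Mathlib
import Pool.Agent.Helper16.CB.Lift
import Pool.Agent.Helper16.CC.Pure

/-! Maps which send circles (periodic orbits of a flow) to circles: lifts to the line. -/

open Set Filter Topology

namespace Pool.Agent.Helper16.CC

open Pool.Agent.Helper16.CB (Flw Flw.comm Flw.canc int_const W)

universe u

/-- the orbit of `y` is periodic with least period `T` -/
def Cy {N : Type u} (R : ℝ → N → N) (y : N) (T : ℝ) : Prop :=
  0 < T ∧ ∀ t, R t y = y ↔ ∃ l : ℤ, t = l * T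

variable {N : Type u} {R : ℝ → N → N}

lemma Cy.int {y : N} {T : ℝ} (hy : Cy R y T) (l : ℤ) : R (l * T) y = y := (hy.2 _).2 ⟨l, rfl⟩

lemma Cy.inj (h : Flw R) {y : N} {T : ℝ} (hy : Cy R y T) {s t : ℝ} (hst : R s y = R t y) :
    ∃ l : ℤ, s - t = l * T := by
  apply (hy.2 _).1
  have h1 : R (s - t) y = R (-t) (R s y) := by rw [← h.add]; congr 1; ring
  rw [h1, hst, ← h.add, neg_add_cancel, h.zero]

lemma Cy.add_int (h : Flw R) {y : N} {T : ℝ} (hy : Cy R y T) (s : ℝ) (l : ℤ) :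
    R (s + l * T) y = R s y := by
  rw [h.add, hy.int]

lemma Cy.shift (h : Flw R) {y : N} {T : ℝ} (hy : Cy R y T) (a : ℝ) : Cy R (R a y) T := by
  refine ⟨hy.1, fun t => ?_⟩
  rw [h.comm, ← hy.2 t]
  exact ⟨fun h1 => h.canc h1, fun h1 => by rw [h1]⟩

lemma Cy.le {y : N} {T T' : ℝ} (hy : Cy R y T) (hy' : Cy R y T') : T ≤ T' := by
  have h1 : R T' y = y := (hy'.2 _).2 ⟨1, by simp⟩
  obtain ⟨l, hl⟩ := (hy.2 _).1 h1
  have h2 : (0 : ℝ) < l := by
    by_contra h3
    have h4 : (l : ℝ) * T ≤ 0 := mul_nonpos_of_nonpos_of_nonneg (not_lt.1 h3) hy.1.le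
    linarith [hy'.1]
  have h3 : (0 : ℤ) < l := by exact_mod_cast h2
  have h4 : (1 : ℝ) ≤ l := by exact_mod_cast h3
  rw [hl]
  nlinarith [hy.1]

lemma Cy.unique {y : N} {T T' : ℝ} (hy : Cy R y T) (hy' : Cy R y T') : T = T' :=
  le_antisymm (hy.le hy') (hy'.le hy)

/-- a lift of `F` on the circle of `y` -/
structure Lft (R : ℝ → N → N) (F : N → N) (y : N) (g : ℝ → ℝ) (T T' : ℝ) : Prop where
  cont : Continuous g
  mono : Monotone g
  zero : g 0 = 0
  per : ∀ t, g (t + T) = g t + T'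
  map : ∀ t, F (R t y) = R (g t) (F y)

/-- other base points -/
lemma Lft.shift (h : Flw R) {F : N → N} {y : N} {g : ℝ → ℝ} {T T' : ℝ} (hg : Lft R F y g T T')
    (a : ℝ) : Lft R F (R a y) (fun t => g (t + a) - g a) T T' where
  cont := (hg.cont.comp (continuous_id.add continuous_const)).sub continuous_const
  mono := fun s t hst => sub_le_sub_right (hg.mono (by linarith)) _
  zero := by simp
  per := fun t => by
    have e : t + T + a = t + a + T := by ring
    rw [e, hg.per]; ring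
  map := fun t => by
    rw [← h.add, hg.map, hg.map, ← h.add, sub_add_cancel]

lemma exists_lift (h : Flw R) {F : N → N} (hF : Function.Injective F) {y : N} {T T' : ℝ}
    (hy : Cy R y T) (hy' : Cy R (F y) T')
    (hg : ∃ g : ℝ → ℝ, Continuous g ∧ Monotone g ∧ ∀ t, F (R t y) = R (g t) (F y)) :
    ∃ g, Lft R F y g T T' := by
  obtain ⟨g, hc, hm, hmap⟩ := hg
  have hT := hy.1
  have hT' := hy'.1
  have hint : ∃ l : ℤ, g 0 = l * T' := by
    apply (hy'.2 _).1
    rw [← hmap, h.zero]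
  obtain ⟨l, hl⟩ := hint
  have hinj : ∀ s t, (∃ j : ℤ, g s - g t = j * T') → ∃ j : ℤ, s - t = j * T := by
    rintro s t ⟨j, hj⟩
    apply hy.inj h
    apply hF
    rw [hmap, hmap]
    have : g s = g t + j * T' := by linarith
    rw [this, hy'.add_int h]
  have hd1 : ∀ t, ∃ j : ℤ, g (t + T) - g t = j * T' := by
    intro t
    apply hy'.inj h
    rw [← hmap, ← hmap]
    congr 1
    have := hy.add_int h t 1
    rwa [Int.cast_one, one_mul] at this
  have hd2 : ∀ t, g (t + T) - g t = g T - g 0 := by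
    intro t
    have := int_const (f := fun t => (g (t + T) - g t) / T')
      (((hc.comp (continuous_id.add continuous_const)).sub hc).div_const T') (fun t => by
        obtain ⟨j, hj⟩ := hd1 t
        exact ⟨j, by rw [hj, mul_div_cancel_right₀ _ hT'.ne']⟩) t 0
    simp only [zero_add] at this
    field_simp at this
    linarith
  obtain ⟨d, hd⟩ : ∃ d : ℤ, g T - g 0 = d * T' := by
    have := hd1 0
    rwa [zero_add] at this
  have hd3 : (0 : ℤ) ≤ d := by
    by_contra hcon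
    have h1 : (d : ℝ) < 0 := by exact_mod_cast not_le.1 hcon
    have h2 := hm hT.le
    nlinarith
  have hd4 : d ≠ 0 := by
    intro h0
    rw [h0, Int.cast_zero, zero_mul] at hd
    have h1 : g (T / 2) = g 0 := le_antisymm ((hm (by linarith : T / 2 ≤ T)).trans (by linarith))
      (hm (by linarith))
    obtain ⟨j, hj⟩ := hinj (T / 2) 0 ⟨0, by rw [h1]; simp⟩
    have h2 : (1 : ℤ) = 2 * j := by
      have h3 : (1 : ℝ) = 2 * j := by
        have h4 : T * (1 - 2 * j) = 0 := by linarith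
        rcases mul_eq_zero.1 h4 with h5 | h5
        · exact absurd h5 hT.ne'
        · linarith
      exact_mod_cast h3
    omega
  have hd5 : ¬ 2 ≤ d := by
    intro h2
    have h2' : (2 : ℝ) ≤ d := by exact_mod_cast h2
    have h2'' : 2 * T' ≤ d * T' := by nlinarith
    obtain ⟨s, hs, hs2⟩ := intermediate_value_Icc hT.le hc.continuousOn
      (show g 0 + T' ∈ Icc (g 0) (g T) from ⟨by linarith, by linarith⟩)
    obtain ⟨j, hj⟩ := hinj s 0 ⟨1, by rw [hs2]; simp⟩
    rw [sub_zero] at hj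
    have h3 : (-1 : ℝ) < j := by
      by_contra h6
      have h7 : (j : ℝ) * T ≤ -1 * T := mul_le_mul_of_nonneg_right (not_lt.1 h6) hT.le
      linarith [hs.1]
    have h4 : (j : ℝ) < 2 := by
      by_contra h6
      have h7 : 2 * T ≤ (j : ℝ) * T := mul_le_mul_of_nonneg_right (not_lt.1 h6) hT.le
      linarith [hs.2]
    have h3' : (-1 : ℤ) < j := by exact_mod_cast h3
    have h4' : j < (2 : ℤ) := by exact_mod_cast h4
    have h5 : j = 0 ∨ j = 1 := by omega
    rcases h5 with h5 | h5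
    · rw [h5, Int.cast_zero, zero_mul] at hj
      rw [hj] at hs2
      linarith
    · rw [h5, Int.cast_one, one_mul] at hj
      rw [hj] at hs2
      linarith
  have hd6 : d = 1 := by omega
  refine ⟨fun t => g t - l * T', hc.sub continuous_const,
    fun s t hst => sub_le_sub_right (hm hst) _, by simp [hl], fun t => ?_, fun t => ?_⟩
  · have := hd2 t
    rw [hd, hd6, Int.cast_one, one_mul] at this
    show g (t + T) - l * T' = g t - l * T' + T'
    linarith
  · rw [hmap]
    have h1 := hy'.add_int h (g t - l * T') l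
    rw [sub_add_cancel] at h1
    exact h1

section
variable {F : N → N} {y : N} {g : ℕ → ℝ → ℝ} {T : ℕ → ℝ}

lemma W_cont (hg : ∀ j, Lft R F (F^[j] y) (g j) (T j) (T (j + 1))) (j : ℕ) :
    Continuous fun q : ℝ × ℝ => W g q.1 j q.2 := by
  induction j with
  | zero => exact continuous_snd
  | succ j ih => exact ((hg j).cont.comp ih).add continuous_fst

lemma W_per (hg : ∀ j, Lft R F (F^[j] y) (g j) (T j) (T (j + 1))) (c : ℝ) (j : ℕ) (t : ℝ) :
    W g c j (t + T 0) = W g c j t + T j := by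
  induction j with
  | zero => rfl
  | succ j ih =>
    show g j (W g c j (t + T 0)) + c = g j (W g c j t) + c + T (j + 1)
    rw [ih, (hg j).per]
    ring

lemma W_mono (hg : ∀ j, Lft R F (F^[j] y) (g j) (T j) (T (j + 1))) (c : ℝ) (j : ℕ) :
    Monotone (W g c j) := by
  induction j with
  | zero => exact monotone_id
  | succ j ih =>
    intro s t hst
    show g j (W g c j s) + c ≤ g j (W g c j t) + c
    linarith [(hg j).mono (ih hst)]

lemma W_inc0 (hg : ∀ j, Lft R F (F^[j] y) (g j) (T j) (T (j + 1))) {c c' : ℝ} (hc : c ≤ c') (j : ℕ)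
    (t : ℝ) : W g c j t ≤ W g c' j t := by
  induction j with
  | zero => exact le_rfl
  | succ j ih =>
    show g j (W g c j t) + c ≤ g j (W g c' j t) + c'
    linarith [(hg j).mono ih]

lemma W_inc (hg : ∀ j, Lft R F (F^[j] y) (g j) (T j) (T (j + 1))) {c c' : ℝ} (hc : c ≤ c') {j : ℕ}
    (hj : 1 ≤ j) (t : ℝ) : W g c j t + (c' - c) ≤ W g c' j t := by
  obtain ⟨i, rfl⟩ : ∃ i, j = i + 1 := ⟨j - 1, by omega⟩
  show g i (W g c i t) + c + (c' - c) ≤ g i (W g c' i t) + c'
  linarith [(hg i).mono (W_inc0 hg hc i t)]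

lemma W_zero (hg : ∀ j, Lft R F (F^[j] y) (g j) (T j) (T (j + 1))) (j : ℕ) : W g 0 j 0 = 0 := by
  induction j with
  | zero => rfl
  | succ j ih =>
    show g j (W g 0 j 0) + 0 = 0
    rw [ih, (hg j).zero, add_zero]

lemma W_iter (h : Flw R) (hg : ∀ j, Lft R F (F^[j] y) (g j) (T j) (T (j + 1))) (c : ℝ) (j : ℕ)
    (t : ℝ) : (fun z => R c (F z))^[j] (R t y) = R (W g c j t) (F^[j] y) := by
  induction j with
  | zero => rfl
  | succ j ih =>
    rw [Function.iterate_succ_apply', ih, (hg j).map, ← h.add, Function.iterate_succ_apply', add_comm]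
    rfl

lemma W_iter0 (h : Flw R) (hg : ∀ j, Lft R F (F^[j] y) (g j) (T j) (T (j + 1))) (j : ℕ) (t : ℝ) :
    F^[j] (R t y) = R (W g 0 j t) (F^[j] y) := by
  have h1 := W_iter h hg 0 j t
  have e : (fun z => R 0 (F z)) = F := funext fun z => h.zero _
  rwa [e] at h1

end

/-- `F` maps the circles of the iterates of `y` to each other. -/
def Gd (R : ℝ → N → N) (F : N → N) (y : N) (T : ℕ → ℝ) : Prop :=
  ∀ i : ℕ, Cy R (F^[i] y) (T i) ∧ ∃ g, Lft R F (F^[i] y) g (T i) (T (i + 1))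

lemma Gd.shift (h : Flw R) {F : N → N} {y : N} {T : ℕ → ℝ} (hy : Gd R F y T) (a : ℝ) :
    Gd R F (R a y) T := by
  choose g hg using fun i => (hy i).2
  intro i
  rw [W_iter0 h hg]
  exact ⟨(hy i).1.shift h _, _, (hg i).shift h _⟩

lemma Gd.iter {F : N → N} {y : N} {T : ℕ → ℝ} (hy : Gd R F y T) (j : ℕ) :
    Gd R F (F^[j] y) (fun i => T (i + j)) := by
  intro i
  rw [← Function.iterate_add_apply]
  have e : i + 1 + j = i + j + 1 := by omega
  show Cy R (F^[i + j] y) (T (i + j)) ∧ ∃ g, Lft R F (F^[i + j] y) g (T (i + j)) (T (i + 1 + j))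
  rw [e]
  exact hy (i + j)

/-- No periodic point `q` of `z ↦ R c (F z)` on a circle is degenerate along the circle,
for `|c| < κ`. -/
def NonDegC (R : ℝ → N → N) (F : N → N) (κ : ℝ) : Prop :=
  ∀ c : ℝ, |c| < κ → ∀ (q : N) (M : ℕ), (∃ T, Cy R q T) → 1 ≤ M →
    (fun z => R c (F z))^[M] q = q → ∀ u : ℝ → ℝ, Continuous u → u 0 = 0 →
      (∀ s, (fun z => R c (F z))^[M] (R s q) = R (u s) q) →
      ¬ IsLocalMax (fun s => u s - s) 0 ∧ ¬ IsLocalMin (fun s => u s - s) 0

section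
variable {F : N → N} {y : N} {g : ℕ → ℝ → ℝ} {T : ℕ → ℝ}

lemma zero_per (h : Flw R) (hy1 : Cy R y (T 0))
    (hg : ∀ j, Lft R F (F^[j] y) (g j) (T j) (T (j + 1))) {M : ℕ}
    {t₀ : ℝ} (hy : F^[M] y = R t₀ y) {p : ℤ} {c t : ℝ} (h0 : W g c M t + t₀ - t - p * T 0 = 0) :
    (fun z => R c (F z))^[M] (R t y) = R t y := by
  rw [W_iter h hg, hy, ← h.add]
  have : W g c M t + t₀ = t + p * T 0 := by linarith
  rw [this, hy1.add_int h]

lemma period_eq (h : Flw R) (hy1 : Gd R F y T) {M : ℕ} {t₀ : ℝ} (hy : F^[M] y = R t₀ y) :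
    T M = T 0 := by
  have h1 := (hy1 M).1
  rw [hy] at h1
  exact h1.unique ((hy1 0).1.shift h t₀)

/-- the family of displacements -/
theorem fam_of (h : Flw R) (hy1 : Cy R y (T 0))
    (hg : ∀ j, Lft R F (F^[j] y) (g j) (T j) (T (j + 1))) {κ : ℝ}
    (hnd : NonDegC R F κ) {M : ℕ} (hM : 1 ≤ M) {t₀ : ℝ} (hy : F^[M] y = R t₀ y) (p : ℤ) :
    Fam κ (fun c t => W g c M t + t₀ - t - p * T 0) := by
  have hnd' : ∀ c t, |c| < κ → W g c M t + t₀ - t - p * T 0 = 0 →
      ¬ IsLocalMax (fun t => W g c M t + t₀ - t - p * T 0) t ∧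
      ¬ IsLocalMin (fun t => W g c M t + t₀ - t - p * T 0) t := by
    intro c t hc h0
    have h1 := zero_per h hy1 hg hy h0
    obtain ⟨u, hu⟩ : ∃ u : ℝ → ℝ, u = fun s => W g c M (t + s) + t₀ - t - p * T 0 := ⟨_, rfl⟩
    have hWc : Continuous (fun s => W g c M s) :=
      (W_cont hg M).comp (continuous_const.prodMk continuous_id)
    have huc : Continuous u := by
      rw [hu]
      exact (((hWc.comp (continuous_const.add continuous_id)).add continuous_const).sub
        continuous_const).sub continuous_const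
    have hu0 : u 0 = 0 := by rw [hu]; simpa using h0
    have hus : ∀ s, (fun z => R c (F z))^[M] (R s (R t y)) = R (u s) (R t y) := by
      intro s
      rw [← h.add, add_comm, W_iter h hg, hy, ← h.add, ← h.add, hu]
      have : W g c M (t + s) + t₀ - t - p * T 0 + t + p * T 0 = W g c M (t + s) + t₀ := by ring
      rw [← hy1.add_int h (W g c M (t + s) + t₀ - t - p * T 0 + t) p, this]
    obtain ⟨h2, h3⟩ := hnd c hc (R t y) M ⟨_, hy1.shift h t⟩ hM h1 u huc hu0 hus
    have htend : Tendsto (fun s : ℝ => t + s) (𝓝 0) (𝓝 t) := by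
      have : Tendsto (fun s : ℝ => t + s) (𝓝 0) (𝓝 (t + 0)) :=
        (continuous_const.add continuous_id).tendsto 0
      rwa [add_zero] at this
    constructor
    · intro hmax
      apply h2
      filter_upwards [htend.eventually hmax] with s hs
      simp only [hu] at *
      rw [add_zero]
      linarith
    · intro hmin
      apply h3
      filter_upwards [htend.eventually hmin] with s hs
      simp only [hu] at *
      rw [add_zero]
      linarith
  refine ⟨?_, fun c c' t hc => ?_, fun c t hc h0 => (hnd' c t hc h0).1,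
    fun c t hc h0 => (hnd' c t hc h0).2⟩
  · exact (((W_cont hg M).add continuous_const).sub continuous_snd).sub continuous_const
  · show W g c M t + t₀ - t - p * T 0 + (c' - c) ≤ W g c' M t + t₀ - t - p * T 0
    linarith [W_inc hg hc hM t]

/-- pigeonhole -/
lemma close_returns (a : ℕ → ℝ) {κ T : ℝ} (hκ : 0 < κ) (hT : 0 < T) :
    ∃ i j : ℕ, i < j ∧ j ≤ ⌊T / κ⌋₊ + 1 ∧ ∃ p : ℤ, |a j - a i - p * T| < κ := by
  obtain ⟨i, j, hij, hj, p, hp⟩ := Pool.Agent.Helper16.CB.close_returns (fun j => a j / T)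
    (div_pos hκ hT)
  rw [one_div_div] at hj
  refine ⟨i, j, hij, hj, p, ?_⟩
  have e : a j - a i - p * T = (a j / T - a i / T - p) * T := by field_simp
  rw [e, abs_mul, abs_of_pos hT]
  rwa [lt_div_iff₀ hT] at hp

/-- the iterates stay on the circle -/
lemma on_circle (h : Flw R) (hg : ∀ j, Lft R F (F^[j] y) (g j) (T j) (T (j + 1))) {m : ℕ} {t₀ : ℝ}
    (hy : F^[m] y = R t₀ y) (j : ℕ) : ∃ a : ℝ, F^[j * m] y = R a y := by
  induction j with
  | zero => exact ⟨0, by rw [zero_mul, h.zero]; rfl⟩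
  | succ j ih =>
    obtain ⟨a, ha⟩ := ih
    have h2 := W_iter0 h hg m a
    rw [hy, ← h.add] at h2
    exact ⟨W g 0 m a + t₀, by
      rw [Nat.succ_mul, add_comm (j * m), Function.iterate_add_apply, ha, h2]⟩

/-- Every periodic circle contains a periodic point. -/
theorem exists_per (h : Flw R) (hgd : Gd R F y T) {κ : ℝ} (hκ : 0 < κ)
    (hnd : NonDegC R F κ) {m : ℕ} (hm : 1 ≤ m) {t₀ : ℝ} (hy : F^[m] y = R t₀ y) :
    ∃ (t : ℝ) (l : ℕ), 1 ≤ l ∧ F^[l] (R t y) = R t y := by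
  choose g₀ hg₀ using fun i => (hgd i).2
  choose a ha using on_circle h hg₀ hy
  obtain ⟨i, j, hij, -, p, hp⟩ := close_returns a hκ (hgd 0).1.1
  obtain ⟨z, hz⟩ : ∃ z, z = R (a i) y := ⟨_, rfl⟩
  obtain ⟨M, hM⟩ : ∃ M, M = (j - i) * m := ⟨_, rfl⟩
  have hM1 : 1 ≤ M := by rw [hM]; exact Nat.mul_pos (by omega) hm
  have hzM : F^[M] z = R (a j - a i) z := by
    rw [hz, ← ha i, ← Function.iterate_add_apply, hM, ← add_mul, Nat.sub_add_cancel hij.le, ha,
      ha, ← h.add, sub_add_cancel]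
  have hzg : Gd R F z T := by rw [hz]; exact hgd.shift h _
  have hz1 : Cy R z (T 0) := (hzg 0).1
  have hTM : T M = T 0 := period_eq h hzg hzM
  choose g hg using fun i => (hzg i).2
  have hfam := fam_of h hz1 hg hnd hM1 hzM p
  obtain ⟨H, hH⟩ : ∃ H : ℝ → ℝ → ℝ, H = fun c t => W g c M t + (a j - a i) - t - p * T 0 := ⟨_, rfl⟩
  rw [← hH] at hfam
  have hperH : ∀ c t, H c (t + T 0) = H c t := by
    intro c t
    rw [hH]
    show W g c M (t + T 0) + (a j - a i) - (t + T 0) - p * T 0 =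
      W g c M t + (a j - a i) - t - p * T 0
    rw [W_per hg, hTM]
    ring
  have hH0 : H 0 0 = a j - a i - p * T 0 := by
    rw [hH]
    show W g 0 M 0 + (a j - a i) - 0 - p * T 0 = a j - a i - p * T 0
    rw [W_zero hg]
    ring
  have hp' := abs_lt.1 hp
  have hzero : ∃ c, |c| < κ ∧ H c 0 = 0 := by
    rcases le_total (H 0 0) 0 with h0 | h0
    · have h2 : 0 ≤ H (-(H 0 0)) 0 := by
        have := hfam.inc 0 (-(H 0 0)) 0 (by linarith)
        linarith
      obtain ⟨c, hc, hc0⟩ := intermediate_value_Icc (a := 0) (b := -(H 0 0)) (by linarith)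
        (hfam.cont2 0).continuousOn (show (0 : ℝ) ∈ Icc (H 0 0) (H (-(H 0 0)) 0) from ⟨h0, h2⟩)
      refine ⟨c, ?_, hc0⟩
      rw [abs_of_nonneg hc.1]
      linarith [hc.2, hp'.1]
    · have h2 : H (-(H 0 0)) 0 ≤ 0 := by
        have := hfam.inc (-(H 0 0)) 0 0 (by linarith)
        linarith
      obtain ⟨c, hc, hc0⟩ := intermediate_value_Icc (a := -(H 0 0)) (b := 0) (by linarith)
        (hfam.cont2 0).continuousOn (show (0 : ℝ) ∈ Icc (H (-(H 0 0)) 0) (H 0 0) from ⟨h2, h0⟩)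
      refine ⟨c, ?_, hc0⟩
      rw [abs_of_nonpos hc.2]
      linarith [hc.1, hp'.2]
  obtain ⟨c, hc, hc0⟩ := hzero
  obtain ⟨t, ht⟩ := hfam.exists_zero (hgd 0).1.1 hperH hc hc0
  rw [hH] at ht
  have h3 := zero_per h hz1 hg hzM ht
  have e : (fun z => R 0 (F z)) = F := funext fun z => h.zero _
  rw [e, hz, ← h.add] at h3
  exact ⟨t + a i, M, hM1, h3⟩

/-- Distinct periodic points on a circle are far apart. -/
theorem per_sep (h : Flw R) {x : N} (hgd : Gd R F x T) {κ : ℝ} (hκ : 0 < κ)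
    (hnd : NonDegC R F κ) {l l' : ℕ} (hl : 1 ≤ l) (hl' : 1 ≤ l') (hx : F^[l] x = x) {s : ℝ}
    (hx' : F^[l'] (R s x) = R s x) (hne : R s x ≠ x) : κ / 2 ≤ |s| := by
  by_contra hcon
  push Not at hcon
  have hx1 : Cy R x (T 0) := (hgd 0).1
  obtain ⟨M, hM⟩ : ∃ M, M = l * l' := ⟨_, rfl⟩
  have hM1 : 1 ≤ M := by rw [hM]; exact Nat.mul_pos hl hl'
  have hMx : F^[M] x = x := by
    rw [hM, Function.iterate_mul]
    exact Function.iterate_fixed hx l'
  have hMs : F^[M] (R s x) = R s x := by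
    rw [hM, mul_comm, Function.iterate_mul]
    exact Function.iterate_fixed hx' l
  have hMx0 : F^[M] x = R 0 x := by rw [h.zero]; exact hMx
  have hTM : T M = T 0 := period_eq h hgd hMx0
  choose g hg using fun i => (hgd i).2
  have hfam := fam_of h hx1 hg hnd hM1 hMx0 0
  have e0 : ∀ t : ℝ, W g 0 M t + 0 - t - ((0 : ℤ) : ℝ) * T 0 = W g 0 M t - t := fun t => by simp
  have hmono : ∀ t t' : ℝ, t ≤ t' → W g 0 M t + 0 - t - ((0 : ℤ) : ℝ) * T 0 + t ≤
      W g 0 M t' + 0 - t' - ((0 : ℤ) : ℝ) * T 0 + t' := by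
    intro t t' htt
    rw [e0, e0]
    linarith [W_mono hg 0 M htt]
  have hz0 : W g 0 M 0 + 0 - 0 - ((0 : ℤ) : ℝ) * T 0 = 0 := by rw [e0, W_zero hg]; simp
  -- the circle is long
  have hTκ : κ / 2 ≤ T 0 := by
    have h1 := W_per hg 0 M 0
    rw [zero_add, W_zero hg, hTM, zero_add] at h1
    have h2 := hfam.sep hκ hmono hx1.1 hz0 (by rw [e0, h1, sub_self])
    linarith
  have hs1 := abs_lt.1 (hcon.trans_le hTκ)
  have hs0 : s ≠ 0 := by
    rintro rfl
    exact hne (h.zero x)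
  -- the lift fixes `s`
  have hint : ∀ p : ℤ, -T 0 < p * T 0 → p * T 0 < T 0 → p = 0 := by
    intro p h1 h2
    have h3 : (-1 : ℝ) < p := by
      by_contra h6
      have h7 : (p : ℝ) * T 0 ≤ -1 * T 0 := mul_le_mul_of_nonneg_right (not_lt.1 h6) hx1.1.le
      linarith
    have h4 : (p : ℝ) < 1 := by
      by_contra h6
      have h7 : 1 * T 0 ≤ (p : ℝ) * T 0 := mul_le_mul_of_nonneg_right (not_lt.1 h6) hx1.1.le
      linarith
    have h3' : (-1 : ℤ) < p := by exact_mod_cast h3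
    have h4' : p < (1 : ℤ) := by exact_mod_cast h4
    omega
  have hWs : W g 0 M s = s := by
    have h1 := W_iter0 h hg M s
    rw [hMx, hMs] at h1
    obtain ⟨p, hp⟩ := hx1.inj h h1
    rcases lt_or_gt_of_ne hs0 with h2 | h2
    · have h3 : W g 0 M s ≤ W g 0 M 0 := W_mono hg 0 M h2.le
      have h4 : W g 0 M (-T 0) ≤ W g 0 M s := W_mono hg 0 M hs1.1.le
      have h5 := W_per hg 0 M (-T 0)
      rw [neg_add_cancel, W_zero hg, hTM] at h5
      rw [W_zero hg] at h3
      have h8 := hint p (by rw [← hp]; linarith) (by rw [← hp]; linarith)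
      rw [h8, Int.cast_zero, zero_mul] at hp
      linarith
    · have h3 : W g 0 M 0 ≤ W g 0 M s := W_mono hg 0 M h2.le
      have h4 : W g 0 M s ≤ W g 0 M (0 + T 0) := W_mono hg 0 M (by linarith [hs1.2])
      have h5 := W_per hg 0 M 0
      rw [h5, W_zero hg, hTM] at h4
      rw [W_zero hg] at h3
      have h8 := hint p (by rw [← hp]; linarith) (by rw [← hp]; linarith)
      rw [h8, Int.cast_zero, zero_mul] at hp
      linarith
  have hzs : W g 0 M s + 0 - s - ((0 : ℤ) : ℝ) * T 0 = 0 := by rw [e0, hWs, sub_self]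
  rcases lt_or_gt_of_ne hs0 with h2 | h2
  · have h3 := hfam.sep hκ hmono h2 hzs hz0
    have h4 := abs_of_neg h2
    linarith
  · have h3 := hfam.sep hκ hmono h2 hz0 hzs
    have h4 := abs_of_pos h2
    linarith

/-- Periodic points on circles are attracting or repelling along the circle, with basins of a uniform
size. -/
theorem per_basin (h : Flw R) {x : N} (hgd : Gd R F x T) {κ : ℝ} (hκ : 0 < κ)
    (hnd : NonDegC R F κ) {l : ℕ} (hl : 1 ≤ l) (hx : F^[l] x = x) :
    ∃ u : ℝ → ℝ, Continuous u ∧ Monotone u ∧ u 0 = 0 ∧ (∀ s, F^[l] (R s x) = R (u s) x) ∧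
      ((∀ s, 0 < |s| → |s| < κ / 2 → |u s| < |s|) ∨
        ∀ s, 0 < |s| → |s| < κ / 2 → |s| < |u s|) := by
  have hx1 : Cy R x (T 0) := (hgd 0).1
  choose g hg using fun i => (hgd i).2
  have hWc : Continuous (fun s => W g 0 l s) :=
    (W_cont hg l).comp (continuous_const.prodMk continuous_id)
  have hfam := fam_of h hx1 hg hnd hl (t₀ := 0) (by rw [h.zero]; exact hx) 0
  have e : ∀ s : ℝ, W g 0 l s + 0 - s - ((0 : ℤ) : ℝ) * T 0 = W g 0 l s - s := fun s => by simp
  have hz0 : W g 0 l 0 + 0 - 0 - ((0 : ℤ) : ℝ) * T 0 = 0 := by rw [e, W_zero hg]; simp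
  have hmono : ∀ t t' : ℝ, t ≤ t' → W g 0 l t + 0 - t - ((0 : ℤ) : ℝ) * T 0 + t ≤
      W g 0 l t' + 0 - t' - ((0 : ℤ) : ℝ) * T 0 + t' := by
    intro t t' htt
    rw [e, e]
    linarith [W_mono hg 0 l htt]
  refine ⟨W g 0 l, hWc, W_mono hg 0 l, W_zero hg l, fun s => ?_, ?_⟩
  · have h1 := W_iter0 h hg l s
    rwa [hx] at h1
  · have hpos : ∀ s, 0 < s → 0 ≤ W g 0 l s := by
      intro s hs
      have := W_mono hg 0 l hs.le
      rwa [W_zero hg] at this
    have hneg : ∀ s, s < 0 → W g 0 l s ≤ 0 := by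
      intro s hs
      have := W_mono hg 0 l hs.le
      rwa [W_zero hg] at this
    rcases hfam.basin hκ hmono hz0 with ⟨h1, h2⟩ | ⟨h1, h2⟩
    · left
      intro s hs hs2
      rcases lt_or_gt_of_ne (abs_pos.1 hs) with h3 | h3
      · rw [abs_of_neg h3] at hs2 ⊢
        have h4 := h2 s ⟨by linarith, h3⟩
        simp only [e] at h4
        rw [abs_of_nonpos (hneg s h3)]
        linarith
      · rw [abs_of_pos h3] at hs2 ⊢
        have h4 := h1 s ⟨h3, hs2⟩
        simp only [e] at h4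
        rw [abs_of_nonneg (hpos s h3)]
        linarith
    · right
      intro s hs hs2
      rcases lt_or_gt_of_ne (abs_pos.1 hs) with h3 | h3
      · rw [abs_of_neg h3] at hs2 ⊢
        have h4 := h2 s ⟨by linarith, h3⟩
        simp only [e] at h4
        rw [abs_of_nonpos (hneg s h3)]
        linarith
      · rw [abs_of_pos h3] at hs2 ⊢
        have h4 := h1 s ⟨h3, hs2⟩
        simp only [e] at h4
        rw [abs_of_nonneg (hpos s h3)]
        linarith

/-- Everything together. -/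
theorem circle_main (h : Flw R) (hF : Function.Injective F) (hgd : Gd R F y T) {κ : ℝ} (hκ : 0 < κ)
    (hnd : NonDegC R F κ) {m : ℕ} (hm : 1 ≤ m) {t₀ : ℝ} (hy : F^[m] y = R t₀ y) :
    ∃ (j : ℕ) (s : ℝ), 1 ≤ j ∧ j ≤ ⌊T 0 / (κ / 2)⌋₊ + 1 ∧ F^[j * m] (R s y) = R s y := by
  obtain ⟨s, l, hl, hper⟩ := exists_per h hgd hκ hnd hm hy
  obtain ⟨x, hx⟩ : ∃ x, x = R s y := ⟨_, rfl⟩
  rw [← hx] at hper
  have hxg : Gd R F x T := by rw [hx]; exact hgd.shift h _
  choose g₀ hg₀ using fun i => (hgd i).2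
  choose g hg using fun i => (hxg i).2
  have hxm : ∃ t₁, F^[m] x = R t₁ x := by
    refine ⟨W g₀ 0 m s + t₀ - s, ?_⟩
    rw [hx, W_iter0 h hg₀, hy, ← h.add, ← h.add, sub_add_cancel]
  obtain ⟨t₁, ht₁⟩ := hxm
  choose a ha using on_circle h hg ht₁
  obtain ⟨i, j, hij, hj, p, hp⟩ := close_returns a (by positivity : 0 < κ / 2) (hgd 0).1.1
  obtain ⟨z, hz⟩ : ∃ z, z = F^[i * m] x := ⟨_, rfl⟩
  have hzg := hxg.iter (i * m)
  rw [← hz] at hzg
  have hz1 : Cy R z (T 0) := by
    rw [hz, ha i]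
    exact (hxg 0).1.shift h _
  have hzj : F^[j * m] x = R (a j - a i - p * T 0) z := by
    have h1 := hz1.add_int h (a j - a i - p * T 0) p
    rw [sub_add_cancel] at h1
    rw [← h1, hz, ha i, ha j, ← h.add, sub_add_cancel]
  have hperi : ∀ b : ℕ, F^[l] (F^[b] x) = F^[b] x := by
    intro b
    rw [← Function.iterate_add_apply, add_comm, Function.iterate_add_apply, hper]
  have heq : R (a j - a i - p * T 0) z = z := by
    by_contra hne
    have h1 := per_sep h hzg hκ hnd hl hl (by rw [hz]; exact hperi _)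
      (by rw [← hzj]; exact hperi _) hne
    linarith
  refine ⟨j - i, s, by omega, by omega, ?_⟩
  rw [← hx]
  apply hF.iterate (i * m)
  rw [← Function.iterate_add_apply, ← add_mul]
  have : i + (j - i) = j := by omega
  rw [this, hzj, heq, hz]

end

end Pool.Agent.Helper16.CC
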