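import Mathlib
import Pool.Agent.Helper16.CB.Deg
import Pool.Agent.Helper16.CC.Lift

/-! `Ω`-stable diffeomorphisms and invariant families of closed orbits of a flow. -/

open scoped Topology ContDiff Manifold
open Set Metric Filter

noncomputable section

set_option linter.unusedSectionVars false

namespace Pool.Agent.Helper16.CC

open Pool.Agent.H718R2.G Pool.Agent.R774.Cl Pool.Agent.R774.ClStmt Pool.Agent.W564.SC
open Pool.Agent.R774.OS Pool.Agent.TH80.OMS Pool.Agent.Helper16.OL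
open Pool.Agent.Y504.CO (HypAt NoBdd)
open Pool.Agent.Helper16.CB (Flw deg_not_hyp)

/-- Along the orbit of `y` the map `F` sends circles to circles, preserving the orientation: the orbits of
`R` through `F^i(y)` are periodic with least period `T i`, and `F` maps each of them to the next one. -/
def CircleOrbit {N : Type} (R : V 1 → N → N) (F : N → N) (y : N) (T : ℕ → ℝ) : Prop :=
  ∀ i : ℕ, 0 < T i ∧ (∀ t : ℝ, R (toV t) (F^[i] y) = F^[i] y ↔ ∃ l : ℤ, t = l * T i) ∧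
    ∃ g : ℝ → ℝ, Continuous g ∧ Monotone g ∧
      ∀ t : ℝ, F (R (toV t) (F^[i] y)) = R (toV (g t)) (F (F^[i] y))

/-- Along its circle the periodic point `x = F^l x` is attracting or repelling, with a basin which
contains all points at distance (time) less than `δ`. -/
def Basin {N : Type} (R : V 1 → N → N) (F : N → N) (δ : ℝ) (x : N) (l : ℕ) : Prop :=
  ∃ u : ℝ → ℝ, Continuous u ∧ Monotone u ∧ u 0 = 0 ∧
    (∀ s : ℝ, F^[l] (R (toV s) x) = R (toV (u s)) x) ∧
    ((∀ s : ℝ, 0 < |s| → |s| < δ → |u s| < |s|) ∨ ∀ s : ℝ, 0 < |s| → |s| < δ → |s| < |u s|)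

/-- On the circle `C` of `y`, of length `τ`, which is mapped to itself by `F^m`, the map `F` is
(topologically) Morse–Smale, with the constant `δ`. -/
structure MorseSmaleOn {N : Type} (R : V 1 → N → N) (F : N → N) (δ τ : ℝ) (y : N) (m : ℕ) :
    Prop where
  exists_per : ∃ (j : ℕ) (s : ℝ), 1 ≤ j ∧ j * δ ≤ τ + δ ∧
    F^[j * m] (R (toV s) y) = R (toV s) y
  sep : ∀ s s' : ℝ, R (toV s) y ∈ Per F → R (toV s') y ∈ Per F → R (toV s) y ≠ R (toV s') y →
    δ ≤ |s - s'|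
  basin : ∀ (s : ℝ) (l : ℕ), 1 ≤ l → F^[l] (R (toV s) y) = R (toV s) y →
    Basin R F δ (R (toV s) y) l

section
variable {n : ℕ} {N : Type} [TopologicalSpace N] [ChartedSpace (V n) N]
  [IsManifold (𝓡 n) ∞ N] [T2Space N] [CompactSpace N]

lemma flw {R : V 1 → N → N} (hR : IsAction 1 n N R) : Flw (fun (t : ℝ) y => R (toV t) y) where
  zero := hR.zero
  add := fun a b y => hR.add (toV a) (toV b) y

lemma gd {R : V 1 → N → N} (hR : IsAction 1 n N R) {F : N → N} (hF : Function.Injective F) {y : N}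
    {T : ℕ → ℝ} (hy : CircleOrbit R F y T) : Gd (fun (t : ℝ) y => R (toV t) y) F y T := by
  intro i
  refine ⟨⟨(hy i).1, (hy i).2.1⟩, exists_lift (flw hR) hF ⟨(hy i).1, (hy i).2.1⟩ ?_ (hy i).2.2⟩
  have h1 := (hy (i + 1)).1
  have h2 := (hy (i + 1)).2.1
  rw [Function.iterate_succ_apply'] at h2
  exact ⟨h1, h2⟩

/-- uniform nondegeneracy -/
theorem nondeg {r : ℕ∞} (hr : 1 ≤ r) {F : DiffM n N r} (hF : OmegaStable n N r F)
    {R : V 1 → N → N} (hR : IsAction 1 n N R) :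
    ∃ κ : ℝ, 0 < κ ∧ NonDegC (fun (t : ℝ) y => R (toV t) y) F κ := by
  rcases isEmpty_or_nonempty N with hN | ⟨⟨z⟩⟩
  · exact ⟨1, by norm_num, fun _ _ q => (hN.false q).elim⟩
  obtain ⟨U, hU, hFU, hconj⟩ := hF
  obtain ⟨κ₀, hκ₀, hmem⟩ := Pool.Agent.TH80.CLX.fam_mem r hr (famD hR r F) (famD_isFam hR r F) z U hU
    (by rw [famD_zero]; exact hFU)
  have h1 : ∀ᶠ c in 𝓝 (0 : ℝ), ‖toV c‖ < κ₀ := by
    have h2 : Tendsto (fun c => ‖toV c‖) (𝓝 0) (𝓝 ‖toV 0‖) := toV_cont.norm.tendsto 0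
    have h00 : toV 0 = 0 := rfl
    rw [h00, norm_zero] at h2
    exact h2.eventually (gt_mem_nhds hκ₀)
  obtain ⟨κ, hκ, hball⟩ := Metric.eventually_nhds_iff_ball.1 h1
  refine ⟨κ, hκ, ?_⟩
  rintro c hc q M ⟨T, hT, hq⟩ hM hper u hu u0 hmap
  have hcU : famD hR r F (toV c) ∈ U := hmem _ (hball c (by
    rw [mem_ball, dist_zero_right, Real.norm_eq_abs]
    exact hc))
  have hst : OmegaStable n N r (famD hR r F (toV c)) := stable_near hU hconj hcU
  have hyp : HypAt n (famD hR r F (toV c)) q :=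
    (Pool.Agent.Y504.CO.Final.isolated_main hr hst).1 q ⟨M, hM, hper⟩
  have hfun : ((powD (famD hR r F (toV c)) M : DiffM n N r) : N → N) =
      (famD hR r F (toV c) : N → N)^[M] := funext fun y => powD_apply _ M y
  have hGM : ContMDiff (𝓡 n) (𝓡 n) 1 (famD hR r F (toV c) : N → N)^[M] := by
    rw [← hfun]
    exact (powD (famD hR r F (toV c)) M).contMDiff.of_le (by exact_mod_cast hr)
  have hhalf : R (toV (T / 2)) q ≠ q := by
    intro h2
    obtain ⟨l, hl⟩ := (hq (T / 2)).1 h2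
    have h3 : (1 : ℤ) = 2 * l := by
      have h3 : (1 : ℝ) = 2 * l := by
        have h4 : T * (1 - 2 * l) = 0 := by linarith
        rcases mul_eq_zero.1 h4 with h5 | h5
        · exact absurd h5 hT.ne'
        · linarith
      exact_mod_cast h3
    omega
  exact ⟨fun h2 => deg_not_hyp hR hhalf hM hGM hper hyp hu u0 hmap (Or.inl h2),
    fun h2 => deg_not_hyp hR hhalf hM hGM hper hyp hu u0 hmap (Or.inr h2)⟩

/-- periodic circles of `Ω`-stable diffeomorphisms -/
theorem periodic_circles {r : ℕ∞} (hr : 1 ≤ r) {F : DiffM n N r} (hF : OmegaStable n N r F)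
    {R : V 1 → N → N} (hR : IsAction 1 n N R) : ∃ δ : ℝ, 0 < δ ∧
    ∀ (y : N) (T : ℕ → ℝ), CircleOrbit R F y T → ∀ (m : ℕ) (t : ℝ), 1 ≤ m →
      F^[m] y = R (toV t) y → MorseSmaleOn R F δ (T 0) y m := by
  obtain ⟨κ, hκ, hnd⟩ := nondeg hr hF hR
  refine ⟨κ / 2, by positivity, ?_⟩
  intro y T hy m t hm hmt
  have hg := gd hR F.injective hy
  refine ⟨?_, ?_, ?_⟩
  · obtain ⟨j, s, h1, h2, h3⟩ := circle_main (flw hR) F.injective hg hκ hnd hm hmt
    refine ⟨j, s, h1, ?_, h3⟩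
    have h4 : (j : ℝ) ≤ T 0 / (κ / 2) + 1 := by
      have h5 : (j : ℝ) ≤ (⌊T 0 / (κ / 2)⌋₊ : ℝ) + 1 := by exact_mod_cast h2
      have h6 : (⌊T 0 / (κ / 2)⌋₊ : ℝ) ≤ T 0 / (κ / 2) :=
        Nat.floor_le (div_nonneg (hg 0).1.1.le (by positivity))
      linarith
    have h7 : (j : ℝ) * (κ / 2) ≤ (T 0 / (κ / 2) + 1) * (κ / 2) :=
      mul_le_mul_of_nonneg_right h4 (by positivity)
    have h8 : (T 0 / (κ / 2) + 1) * (κ / 2) = T 0 + κ / 2 := by field_simp
    linarith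
  · rintro s s' ⟨l, hl, hx⟩ ⟨l', hl', hx'⟩ hne
    have e : R (toV s) y = R (toV (s - s')) (R (toV s') y) := by
      have h1 := (flw hR).add (s - s') s' y
      rw [sub_add_cancel] at h1
      exact h1
    rw [e] at hx hne
    exact per_sep (flw hR) (hg.shift (flw hR) s') hκ hnd hl' hl hx' hx hne
  · intro s l hl hx
    exact per_basin (flw hR) (hg.shift (flw hR) s) hκ hnd hl hx

end

end Pool.Agent.Helper16.CC
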